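import Pool.Graph.R_seed8.H929R3.Main

set_option autoImplicit false

/-!
# Two-element fibres of toric ideals give generators of large degree: all coefficient rings

The module `H929R3/Toric.lean` of the library with the complex numbers replaced by an arbitrary
nontrivial commutative ring.
-/

namespace Pool.Agent.KS6_20.CT

open MvPolynomial

open Pool.Agent.H929R3 (lin)

universe u

variable {k : Type u} [CommRing k]

/-- The monomial map with exponents `E`. -/
noncomputable abbrev mono {σ τ : Type} (k : Type u) [CommRing k] (E : σ → τ →₀ ℕ) :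
    MvPolynomial σ k →ₐ[k] MvPolynomial τ k :=
  aeval (R := k) (fun g => (monomial (E g) (1 : k) : MvPolynomial τ k))

theorem mono_monomial {σ τ : Type} (E : σ → τ →₀ ℕ) (m : σ →₀ ℕ) (c : k) :
    mono k E (monomial m c) = monomial (lin E m) c := by
  classical
  rw [mono, aeval_monomial, Finsupp.prod, MvPolynomial.algebraMap_eq]
  have h2 : ∏ i ∈ m.support, (monomial (E i) (1 : k) : MvPolynomial τ k) ^ m i
      = monomial (lin E m) 1 := by
    rw [lin, Finsupp.linearCombination_apply, Finsupp.sum, monomial_sum_one]
    refine Finset.prod_congr rfl fun i _ => ?_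
    rw [monomial_pow, one_pow]
  rw [h2, C_mul_monomial, mul_one]

/-- Coefficient of a monomial alone in its fibre vanishes for elements of the kernel of a
monomial map. -/
theorem coeff_eq_zero_of_alone {σ τ : Type} (E : σ → τ →₀ ℕ) (p : MvPolynomial σ k)
    (hp : mono k E p = 0) (m0 : σ →₀ ℕ)
    (huniq : ∀ m : σ →₀ ℕ, lin E m = lin E m0 → m = m0) :
    coeff m0 p = 0 := by
  classical
  have h1 : mono k E p = ∑ d ∈ p.support, monomial (lin E d) (coeff d p) := by
    conv_lhs => rw [p.as_sum]
    rw [map_sum]
    exact Finset.sum_congr rfl fun d _ => mono_monomial E d _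
  rw [h1] at hp
  have h3 := congrArg (coeff (lin E m0)) hp
  rw [coeff_sum, coeff_zero] at h3
  simp only [coeff_monomial] at h3
  have h4 : ∀ d ∈ p.support, (if lin E d = lin E m0
      then coeff d p else 0) = if d = m0 then coeff m0 p else 0 := by
    intro d _
    by_cases hd : d = m0
    · subst hd; simp
    · rw [if_neg hd, if_neg]
      intro h; exact hd (huniq d h)
  rw [Finset.sum_congr rfl h4, Finset.sum_ite_eq'] at h3
  by_cases hm : m0 ∈ p.support
  · rw [if_pos hm] at h3; exact h3
  · simpa [mem_support_iff] using hm

/-- Core lemma: if for every `r` the fibre of `T0 + r g0` consists of `T0 + r g0` and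
`T1 + r g0` only, `T0` and `T1` are disjoint, then no multiple `x_{g0}^r (x^T0 - x^T1)` lies in
an ideal generated by elements of the toric ideal of degree smaller than the degree of `T0`. -/
theorem not_mem_span [Nontrivial k] {σ τ : Type} (E : σ → τ →₀ ℕ) (T0 T1 : σ →₀ ℕ) (g0 : σ) (r : ℕ)
    (hdisj : ∀ g, T0 g = 0 ∨ T1 g = 0) (hne : T0 ≠ T1)
    (hfib : ∀ M : σ →₀ ℕ, lin E M = lin E (T0 + Finsupp.single g0 r) →
      M = T0 + Finsupp.single g0 r ∨ M = T1 + Finsupp.single g0 r)
    (S : Set (MvPolynomial σ k))
    (hS : ∀ q ∈ S, mono k E q = 0 ∧ q.totalDegree < T0.degree) :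
    X g0 ^ r * (monomial T0 (1 : k) - monomial T1 (1 : k)) ∉ Ideal.span S := by
  classical
  intro hmem
  have key : ∀ p ∈ Ideal.span S, ∀ a : MvPolynomial σ k,
      coeff (T0 + Finsupp.single g0 r) (a * p) = 0 := by
    intro p hp
    refine Submodule.span_induction (p := fun p _ => ∀ a : MvPolynomial σ k,
      coeff (T0 + Finsupp.single g0 r) (a * p) = 0) ?_ ?_ ?_ ?_ hp
    · intro s hs a
      obtain ⟨hs1, hs2⟩ := hS s hs
      rw [coeff_mul]
      refine Finset.sum_eq_zero fun x hx => ?_
      replace hx := Finset.HasAntidiagonal.mem_antidiagonal.mp hx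
      suffices h : coeff x.2 s = 0 by rw [h, mul_zero]
      by_contra hcon
      have hdeg : x.2.degree < T0.degree := by
        refine lt_of_le_of_lt ?_ hs2
        have := le_totalDegree (mem_support_iff.mpr hcon)
        rw [Finsupp.degree_apply]
        exact this
      apply hcon
      refine coeff_eq_zero_of_alone E s hs1 x.2 ?_
      intro U' hU'
      have h1 : lin E (x.1 + U') = lin E (T0 + Finsupp.single g0 r) := by
        rw [map_add, hU', ← map_add, hx]
      rcases hfib _ h1 with h2 | h2
      · rw [← hx] at h2
        exact add_left_cancel h2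
      · exfalso
        have h3 : x.1 ≤ Finsupp.single g0 r := by
          intro g
          have e1 := DFunLike.congr_fun hx g
          have e2 := DFunLike.congr_fun h2 g
          simp only [Finsupp.add_apply] at e1 e2
          rcases hdisj g with h | h
          · omega
          · omega
        have h4 : x.1.degree ≤ r := by
          have h5 : (Finsupp.single g0 r : σ →₀ ℕ) = x.1 + (Finsupp.single g0 r - x.1) :=
            (add_tsub_cancel_of_le h3).symm
          have h6 := congrArg Finsupp.degree h5
          rw [map_add, Finsupp.degree_single] at h6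
          omega
        have h7 := congrArg Finsupp.degree hx
        rw [map_add, map_add, Finsupp.degree_single] at h7
        omega
    · intro a; rw [mul_zero, coeff_zero]
    · intro x y _ _ hx hy a
      rw [mul_add, coeff_add, hx, hy, add_zero]
    · intro b x _ hx a
      rw [smul_eq_mul, ← mul_assoc]
      exact hx _
  have h1 := key _ hmem 1
  rw [one_mul] at h1
  have h2 : (X g0 ^ r * (monomial T0 (1 : k) - monomial T1 (1 : k)) : MvPolynomial σ k)
      = monomial (T0 + Finsupp.single g0 r) 1 - monomial (T1 + Finsupp.single g0 r) 1 := by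
    rw [X_pow_eq_monomial, mul_sub, monomial_mul, monomial_mul, one_mul,
      add_comm T0, add_comm T1]
  rw [h2, coeff_sub, coeff_monomial, coeff_monomial, if_pos rfl, if_neg, sub_zero] at h1
  · exact one_ne_zero h1
  · intro h
    exact hne (add_right_cancel h).symm

/-- The binomial of two exponents in the same fibre lies in the toric ideal. -/
theorem binomial_mem {σ τ : Type} (E : σ → τ →₀ ℕ) (T0 T1 : σ →₀ ℕ)
    (h : lin E T0 = lin E T1) :
    mono k E (monomial T0 (1 : k) - monomial T1 (1 : k)) = 0 := by
  rw [map_sub, mono_monomial, mono_monomial, h, sub_self]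

end Pool.Agent.KS6_20.CT
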